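import Pool.Agent.H55.CG.Targets

/-!
# Copolymer, order of the gap: row GRP
-/

set_option autoImplicit false

open MeasureTheory ProbabilityTheory Filter Topology
open Pool.Agent.H95 Pool.Agent.H95.Cop Pool.Agent.H55.CG

namespace Pool.Agent.H27.CG

open Classical in
/-- the group functional is a mean -/
private theorem gg_eq (K : PMF ℕ) (ℓ : ℕ) (t : Bool) (n : ℕ) (t' : Bool) (x : ℕ → ℝ) :
    gg K ℓ t n t' x = ∑ p ∈ (Finset.Ico ((2 * n - 1) * ℓ) (2 * n * ℓ)).sigma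
      (fun y => Finset.Ico y (2 * n * ℓ)),
      (uu (kk K) (p.2 - p.1) / VV K ℓ) * Real.exp (ex ℓ t n t' x p.1 p.2) := by
  unfold gg
  rw [Finset.sum_sigma, Finset.sum_div]
  refine Finset.sum_congr rfl fun y _ => ?_
  rw [Finset.sum_div]
  exact Finset.sum_congr rfl fun z _ => by ring

theorem pf_GRP (hEXG : T_EXG) (hEXC : T_EXC) (hGGS : T_GGS) (hMSG : T_MSG) : T_GRP := by
  classical
  intro K ν _ hexp γ q ℓ t t' n hγ hγ1 hq hl hn htn hM1 hM2 hM3
  obtain ⟨hVV, hgg0, -, hsum⟩ := hGGS K ℓ hl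
  obtain ⟨hmg, hmG, -, -⟩ := hMSG K ℓ q t t' n
  set P := (Finset.Ico ((2 * n - 1) * ℓ) (2 * n * ℓ)).sigma
      (fun y => Finset.Ico y (2 * n * ℓ)) with hP
  set c := 1 / 2 * (Mo ν γ ^ (((if t then 2 * n else 0) + 1) * ℓ) * Mo ν (γ / 2) ^ ℓ) with hc
  have hmem : ∀ p ∈ P, (2 * n - 1) * ℓ ≤ p.1 ∧ p.1 ≤ p.2 ∧ p.2 < 2 * n * ℓ := by
    intro p hp
    rw [hP, Finset.mem_sigma, Finset.mem_Ico, Finset.mem_Ico] at hp
    exact ⟨hp.1.1, hp.2.1, hp.2.2⟩
  have hw0 : ∀ p ∈ P, 0 ≤ uu (kk K) (p.2 - p.1) / VV K ℓ := by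
    intro p _
    exact div_nonneg (uu_nonneg (kk K) (fun _ => ENNReal.toReal_nonneg) _) hVV.le
  have hw1 : ∑ p ∈ P, uu (kk K) (p.2 - p.1) / VV K ℓ = 1 := by
    rw [hP, Finset.sum_sigma]
    have e := hsum n hn
    have e2 : ∑ y ∈ Finset.Ico ((2 * n - 1) * ℓ) (2 * n * ℓ), ∑ z ∈ Finset.Ico y (2 * n * ℓ),
        uu (kk K) (z - y) / VV K ℓ =
        (∑ y ∈ Finset.Ico ((2 * n - 1) * ℓ) (2 * n * ℓ), ∑ z ∈ Finset.Ico y (2 * n * ℓ),
          uu (kk K) (z - y)) / VV K ℓ := by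
      rw [Finset.sum_div]
      exact Finset.sum_congr rfl fun y _ => by rw [Finset.sum_div]
    rw [e2, e, div_self hVV.ne']
  -- integrability of the exponentials
  have hint : ∀ (s : ℝ), ∀ p ∈ P,
      Integrable (fun x : ℕ → ℝ => Real.exp (s * ex ℓ t n t' x p.1 p.2)) (iid ν) := by
    intro s p hp
    obtain ⟨h1, h2, h3⟩ := hmem p hp
    have h := (hEXC ν hexp s 0 ℓ t t' n 0 0 p.1 p.2 hl hn (le_refl 0) (Nat.zero_le n) h1 h2 h3).1
    refine h.congr (Filter.Eventually.of_forall fun x => ?_)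
    show Real.exp (s * ex ℓ t n t' x p.1 p.2 + 0 * SX ℓ x 0 0) = _
    rw [zero_mul, add_zero]
  -- the indicator
  have hind : ∀ f : (ℕ → ℝ) → ℝ, (fun x => if Gd q ℓ t n x then f x else 0) =
      Set.indicator {x : ℕ → ℝ | Gd q ℓ t n x} f := by
    intro f
    funext x
    by_cases hx : Gd q ℓ t n x
    · rw [if_pos hx, Set.indicator_of_mem (by exact hx)]
    · rw [if_neg hx, Set.indicator_of_notMem (by exact hx)]
  have hF : ∀ p ∈ P, Integrable (fun x : ℕ → ℝ =>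
      if Gd q ℓ t n x then Real.exp (γ * ex ℓ t n t' x p.1 p.2) else 0) (iid ν) := by
    intro p hp
    rw [hind fun x => Real.exp (γ * ex ℓ t n t' x p.1 p.2)]
    exact (hint γ p hp).indicator hmG
  have hggint : Integrable (gg K ℓ t n t') (iid ν) := by
    have e : gg K ℓ t n t' = fun x => ∑ p ∈ P, (uu (kk K) (p.2 - p.1) / VV K ℓ) *
        Real.exp (ex ℓ t n t' x p.1 p.2) := by
      funext x
      exact gg_eq K ℓ t n t' x
    rw [e]
    refine integrable_finsetSum _ fun p hp => ?_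
    refine Integrable.const_mul ?_ _
    refine (hint 1 p hp).congr (Filter.Eventually.of_forall fun x => ?_)
    show Real.exp (1 * ex ℓ t n t' x p.1 p.2) = _
    rw [one_mul]
  have hpow : Integrable (fun x => gg K ℓ t n t' x ^ γ) (iid ν) := by
    refine Integrable.mono' ((integrable_const (1 : ℝ)).add hggint)
      (hmg.pow_const γ).aestronglyMeasurable (Filter.Eventually.of_forall fun x => ?_)
    have h0 := hgg0 t n t' x
    rw [Real.norm_of_nonneg (Real.rpow_nonneg h0 γ)]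
    show gg K ℓ t n t' x ^ γ ≤ 1 + gg K ℓ t n t' x
    by_cases h1 : gg K ℓ t n t' x ≤ 1
    · have := Real.rpow_le_one h0 h1 hγ.le
      linarith
    · have h2 : 1 ≤ gg K ℓ t n t' x := le_of_lt (not_le.1 h1)
      have := Real.rpow_le_rpow_of_exponent_le h2 hγ1
      rw [Real.rpow_one] at this
      linarith
  have hL : Integrable (fun x => if Gd q ℓ t n x then gg K ℓ t n t' x ^ γ else 0) (iid ν) := by
    rw [hind fun x => gg K ℓ t n t' x ^ γ]
    exact hpow.indicator hmG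
  -- pointwise
  have hpt : ∀ x : ℕ → ℝ, ∑ p ∈ P, (uu (kk K) (p.2 - p.1) / VV K ℓ) *
      (if Gd q ℓ t n x then Real.exp (γ * ex ℓ t n t' x p.1 p.2) else 0) ≤
      if Gd q ℓ t n x then gg K ℓ t n t' x ^ γ else 0 := by
    intro x
    by_cases hx : Gd q ℓ t n x
    · simp only [if_pos hx]
      rw [gg_eq K ℓ t n t' x]
      have hcon := (Real.concaveOn_rpow hγ.le hγ1).le_map_sum (t := P)
        (w := fun p => uu (kk K) (p.2 - p.1) / VV K ℓ)
        (p := fun p => Real.exp (ex ℓ t n t' x p.1 p.2)) hw0 hw1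
        (fun p _ => Set.mem_Ici.2 (Real.exp_nonneg _))
      simp only [smul_eq_mul] at hcon
      refine le_trans (le_of_eq ?_) hcon
      refine Finset.sum_congr rfl fun p _ => ?_
      rw [← Real.exp_mul, mul_comm γ]
    · simp only [if_neg hx, mul_zero, Finset.sum_const_zero, le_refl]
  have hsumint : Integrable (fun x : ℕ → ℝ => ∑ p ∈ P, (uu (kk K) (p.2 - p.1) / VV K ℓ) *
      (if Gd q ℓ t n x then Real.exp (γ * ex ℓ t n t' x p.1 p.2) else 0)) (iid ν) :=
    integrable_finsetSum _ fun p hp => (hF p hp).const_mul _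
  refine le_trans ?_ (integral_mono hsumint hL hpt)
  rw [integral_finsetSum _ fun p hp => (hF p hp).const_mul _]
  have hone : ∀ p ∈ P, (uu (kk K) (p.2 - p.1) / VV K ℓ) * c ≤
      ∫ x : ℕ → ℝ, (uu (kk K) (p.2 - p.1) / VV K ℓ) *
        (if Gd q ℓ t n x then Real.exp (γ * ex ℓ t n t' x p.1 p.2) else 0) ∂(iid ν) := by
    intro p hp
    rw [integral_const_mul]
    obtain ⟨h1, h2, h3⟩ := hmem p hp
    exact mul_le_mul_of_nonneg_left
      (hEXG ν hexp γ q ℓ t t' n hγ hq hl hn htn hM1 hM2 hM3 p.1 p.2 h1 h2 h3) (hw0 p hp)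
  refine le_trans (le_of_eq ?_) (Finset.sum_le_sum hone)
  rw [← Finset.sum_mul, hw1, one_mul]

end Pool.Agent.H27.CG
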