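import Pool.Agent.H55.CG.Targets

/-!
# Copolymer, order of the gap: row VVL
-/

set_option autoImplicit false

open MeasureTheory ProbabilityTheory Filter Topology
open Pool.Agent.H95 Pool.Agent.H95.Cop Pool.Agent.H55.CG

namespace Pool.Agent.H27.CG

private theorem kk_nn (K : PMF ℕ) (n : ℕ) : 0 ≤ kk K n := ENNReal.toReal_nonneg

private theorem uu_nn (K : PMF ℕ) (n : ℕ) : 0 ≤ uu (kk K) n := uu_nonneg (kk K) (kk_nn K) n

private theorem UU_mono' (K : PMF ℕ) {a b : ℕ} (h : a ≤ b) : UU K a ≤ UU K b := by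
  unfold UU
  exact Finset.sum_le_sum_of_subset_of_nonneg (Finset.range_mono h) fun i _ _ => uu_nn K i

private theorem UU_nn (K : PMF ℕ) (a : ℕ) : 0 ≤ UU K a := by
  unfold UU
  exact Finset.sum_nonneg fun i _ => uu_nn K i

private theorem VV_eq (K : PMF ℕ) (n : ℕ) : VV K n = ∑ y ∈ Finset.range n, UU K (n - y) := by
  unfold VV
  refine Finset.sum_congr rfl fun y _ => ?_
  rw [Finset.sum_Ico_eq_sum_range]
  unfold UU
  exact Finset.sum_congr rfl fun i _ => by rw [Nat.add_sub_cancel_left]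

private theorem VV_ge (K : PMF ℕ) (n : ℕ) (hn : 1 ≤ n) :
    (n : ℝ) / 2 * UU K ((n + 1) / 2) ≤ VV K n := by
  rw [VV_eq]
  have hsub : Finset.range (n - (n + 1) / 2 + 1) ⊆ Finset.range n := by
    apply Finset.range_mono
    omega
  refine le_trans ?_ (Finset.sum_le_sum_of_subset_of_nonneg hsub fun i _ _ => UU_nn K _)
  have h1 : ∀ y ∈ Finset.range (n - (n + 1) / 2 + 1), UU K ((n + 1) / 2) ≤ UU K (n - y) := by
    intro y hy
    rw [Finset.mem_range] at hy
    apply UU_mono'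
    omega
  refine le_trans ?_ (Finset.sum_le_sum h1)
  rw [Finset.sum_const, Finset.card_range, nsmul_eq_mul]
  apply mul_le_mul_of_nonneg_right _ (UU_nn K _)
  have h2 : n ≤ 2 * (n - (n + 1) / 2 + 1) := by omega
  have h3 : (n : ℝ) ≤ 2 * ((n - (n + 1) / 2 + 1 : ℕ) : ℝ) := by exact_mod_cast h2
  linarith

theorem pf_VVL (hUUL : T_UUL) : T_VVL := by
  intro α ha ha1 K hK0 cK hcK hlim
  have h := hUUL α ha ha1 K hK0 cK hcK hlim
  have ht : Tendsto (fun n : ℕ => (n + 1) / 2) atTop atTop := by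
    apply tendsto_atTop_atTop.2
    intro b
    refine ⟨2 * b, fun a hab => ?_⟩
    omega
  have h2 := ht.eventually h
  filter_upwards [h2, eventually_ge_atTop 1] with n hn hn1
  refine le_trans ?_ (VV_ge K n hn1)
  have hn0 : (0 : ℝ) < n := by exact_mod_cast hn1
  have e1 : (n : ℝ) / 2 ≤ (((n + 1) / 2 : ℕ) : ℝ) := by
    have : n ≤ 2 * ((n + 1) / 2) := by omega
    have h3 : (n : ℝ) ≤ 2 * (((n + 1) / 2 : ℕ) : ℝ) := by exact_mod_cast this
    linarith
  have e2 : ((n : ℝ) / 2) ^ α ≤ (((n + 1) / 2 : ℕ) : ℝ) ^ α :=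
    Real.rpow_le_rpow (by positivity) e1 ha.le
  have e3 : (n : ℝ) ^ α / 2 ≤ ((n : ℝ) / 2) ^ α := by
    rw [Real.div_rpow hn0.le (by norm_num)]
    have e4 : (2 : ℝ) ^ α ≤ 2 := by
      have := Real.rpow_le_rpow_of_exponent_le (by norm_num : (1 : ℝ) ≤ 2) ha1.le
      rwa [Real.rpow_one] at this
    have e5 : (0 : ℝ) < 2 ^ α := by positivity
    exact div_le_div_of_nonneg_left (by positivity) e5 e4
  have hc : 0 ≤ α * (1 - α) / (2 * cK) := by
    have : 0 < 1 - α := by linarith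
    positivity
  have e6 : α * (1 - α) / (2 * cK) * ((n : ℝ) ^ α / 2) ≤ UU K ((n + 1) / 2) :=
    le_trans (mul_le_mul_of_nonneg_left (le_trans e3 e2) hc) hn
  have e7 : (n : ℝ) ^ (1 + α) = n * (n : ℝ) ^ α := by
    rw [Real.rpow_add hn0, Real.rpow_one]
  rw [e7]
  have e8 : (n : ℝ) / 2 * (α * (1 - α) / (2 * cK) * ((n : ℝ) ^ α / 2)) ≤
      (n : ℝ) / 2 * UU K ((n + 1) / 2) :=
    mul_le_mul_of_nonneg_left e6 (by positivity)
  refine le_trans (le_of_eq ?_) e8
  field_simp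
  ring

end Pool.Agent.H27.CG
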